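import Pool.Agent.K7.H42.SD.Defs
import Pool.Agent.NPC.Num

/-!
# Project SD, job ALG: scans can be found in polynomial time
-/

set_option autoImplicit false

namespace Pool.Agent.K7.H87.SD

open Pool.Agent.NPC Pool.Agent.K7.H42.SD

/-! ### The algorithm -/

/-- a state: `((lo, hi), (registers, cost))` -/
abbrev St := (ℕ × ℕ) × (Reg × ℕ)

/-- membership in the registers -/
def memb (h : Reg) (x : ℕ) : Bool :=
  decide (x = h.1.1) || (decide (x = h.1.2) || (decide (x = h.2.1) || decide (x = h.2.2)))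

/-- the cost of new registers -/
def newcb (L : List (List ℕ)) (h h' : Reg) : ℕ :=
  ((List.range L.length).filter (fun x => memb h' x && !(memb h x))).length

/-- the cost of a row -/
def undb (L : List (List ℕ)) (h : Reg) (r : ℕ) : ℕ :=
  bif (List.range L.length).any (fun x => memb h x && (decide (x = r) || adjb L x r)) then 0 else 1

/-- all states -/
def allb (I : Inst) : List St :=
  ((List.range (I.1.length + 1)).product (List.range (I.1.length + 1))).product
    ((((List.range (I.1.length + 1)).product (List.range (I.1.length + 1))).product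
      ((List.range (I.1.length + 1)).product (List.range (I.1.length + 1)))).product
        (List.range (5 * I.1.length + 1)))

/-- the transitions -/
def tr (L : List (List ℕ)) (s' s : St) : Bool :=
  (decide (s.1.1 = s'.1.1 + 1) && (decide (s.1.2 = s'.1.2) && (decide (s'.1.1 < s'.1.2) &&
    decide (s.2.2 = s'.2.2 + undb L s'.2.1 s'.1.1 + newcb L s'.2.1 s.2.1)))) ||
  (decide (s.1.1 = s'.1.1) && (decide (s.1.2 + 1 = s'.1.2) && (decide (s.1.1 ≤ s.1.2) &&
    decide (s.2.2 = s'.2.2 + undb L s'.2.1 s'.1.2 + newcb L s'.2.1 s.2.1))))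

/-- the empty registers -/
def empb (L : List (List ℕ)) : Reg := ((L.length, L.length), (L.length, L.length))

/-- the first states -/
def init (I : Inst) : List St :=
  (allb I).filter (fun s => decide (s.1.1 = 0) && (decide (s.1.2 = I.1.length - 1) &&
    decide (s.2.2 = newcb I.1 (empb I.1) s.2.1)))

/-- the next states -/
def step (I : Inst) (cur : List St) : List St :=
  (allb I).filter (fun s => cur.any (fun s' => tr I.1 s' s))

/-- the last states -/
def fin (I : Inst) : List St := (step I)^[I.1.tail.length] (init I)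

/-- the algorithm -/
def alg (I : Inst) : Bool :=
  decide (I.1.length = 0) || (fin I).any (fun s => decide (s.1.1 = s.1.2) &&
    decide (s.2.2 + undb I.1 s.2.1 s.1.1 ≤ I.2))

/-! ### Polynomial time -/

section PolyPart

variable {α β γ : Type} [TEnc α] [TEnc β] [TEnc γ]

theorem poly_product {l : α → List β} {l' : α → List γ} (hl : NPC.Poly l) (hl' : NPC.Poly l') :
    NPC.Poly (fun a => (l a).product (l' a)) := by
  unfold List.product
  refine NPC.Poly.flatMap (F := fun a b => (l' a).map (Prod.mk b)) hl ?_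
  exact NPC.Poly.map (l := fun p : α × β => l' p.1) (F := fun (p : α × β) (c : γ) => (p.2, c))
    (hl'.comp (NPC.Poly.fst NPC.Poly.id)) (NPC.Poly.pair (NPC.Poly.snd (NPC.Poly.fst NPC.Poly.id)) (NPC.Poly.snd NPC.Poly.id))

theorem poly_adjb {L : α → List (List ℕ)} {i j : α → ℕ} (hL : NPC.Poly L) (hi : NPC.Poly i)
    (hj : NPC.Poly j) : NPC.Poly (fun a => adjb (L a) (i a) (j a)) := by
  unfold adjb
  exact NPC.Poly.and (NPC.Poly.and (NPC.Poly.decide_lt hi (NPC.Poly.length hL))
    (NPC.Poly.decide_lt hj (NPC.Poly.length hL))) (NPC.Poly.and (NPC.Poly.not (NPC.Poly.decide_eq hi hj))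
      (NPC.Poly.or (NPC.Poly.decide_mem hj (NPC.Poly.getD hL hi (NPC.Poly.const [])))
        (NPC.Poly.decide_mem hi (NPC.Poly.getD hL hj (NPC.Poly.const [])))))

theorem poly_memb {h : α → Reg} {x : α → ℕ} (hh : NPC.Poly h) (hx : NPC.Poly x) :
    NPC.Poly (fun a => memb (h a) (x a)) := by
  unfold memb
  exact NPC.Poly.or (NPC.Poly.decide_eq hx (NPC.Poly.fst (NPC.Poly.fst hh)))
    (NPC.Poly.or (NPC.Poly.decide_eq hx (NPC.Poly.snd (NPC.Poly.fst hh)))
      (NPC.Poly.or (NPC.Poly.decide_eq hx (NPC.Poly.fst (NPC.Poly.snd hh)))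
        (NPC.Poly.decide_eq hx (NPC.Poly.snd (NPC.Poly.snd hh)))))

theorem poly_newcb {L : α → List (List ℕ)} {h h' : α → Reg} (hL : NPC.Poly L) (hh : NPC.Poly h)
    (hh' : NPC.Poly h') : NPC.Poly (fun a => newcb (L a) (h a) (h' a)) := by
  unfold newcb
  refine NPC.Poly.length (NPC.Poly.filter (p := fun a x => memb (h' a) x && !(memb (h a) x))
    (NPC.Poly.range_length hL) ?_)
  exact NPC.Poly.and (poly_memb (hh'.comp (NPC.Poly.fst NPC.Poly.id)) (NPC.Poly.snd NPC.Poly.id))
    (NPC.Poly.not (poly_memb (hh.comp (NPC.Poly.fst NPC.Poly.id)) (NPC.Poly.snd NPC.Poly.id)))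

theorem poly_undb {L : α → List (List ℕ)} {h : α → Reg} {r : α → ℕ} (hL : NPC.Poly L) (hh : NPC.Poly h)
    (hr : NPC.Poly r) : NPC.Poly (fun a => undb (L a) (h a) (r a)) := by
  unfold undb
  refine NPC.Poly.cond (NPC.Poly.any (p := fun a x => memb (h a) x && (decide (x = r a) ||
    adjb (L a) x (r a))) (NPC.Poly.range_length hL) ?_) (NPC.Poly.const 0) (NPC.Poly.const 1)
  have hr' : NPC.Poly (fun p : α × ℕ => r p.1) := hr.comp (NPC.Poly.fst NPC.Poly.id)
  exact NPC.Poly.and (poly_memb (hh.comp (NPC.Poly.fst NPC.Poly.id)) (NPC.Poly.snd NPC.Poly.id))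
    (NPC.Poly.or (NPC.Poly.decide_eq (NPC.Poly.snd NPC.Poly.id) hr')
      (poly_adjb (hL.comp (NPC.Poly.fst NPC.Poly.id)) (NPC.Poly.snd NPC.Poly.id) hr'))

theorem poly_tr {L : α → List (List ℕ)} {s' s : α → St} (hL : NPC.Poly L) (hs' : NPC.Poly s')
    (hs : NPC.Poly s) : NPC.Poly (fun a => tr (L a) (s' a) (s a)) := by
  have lo' := NPC.Poly.fst (NPC.Poly.fst hs')
  have hi' := NPC.Poly.snd (NPC.Poly.fst hs')
  have lo := NPC.Poly.fst (NPC.Poly.fst hs)
  have hi := NPC.Poly.snd (NPC.Poly.fst hs)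
  have h' := NPC.Poly.fst (NPC.Poly.snd hs')
  have h := NPC.Poly.fst (NPC.Poly.snd hs)
  have c' := NPC.Poly.snd (NPC.Poly.snd hs')
  have c := NPC.Poly.snd (NPC.Poly.snd hs)
  unfold tr
  exact NPC.Poly.or (NPC.Poly.and (NPC.Poly.decide_eq lo (NPC.Poly.succ lo')) (NPC.Poly.and (NPC.Poly.decide_eq hi hi')
    (NPC.Poly.and (NPC.Poly.decide_lt lo' hi') (NPC.Poly.decide_eq c (NPC.Poly.add (NPC.Poly.add c'
      (poly_undb hL h' lo')) (poly_newcb hL h' h))))))
    (NPC.Poly.and (NPC.Poly.decide_eq lo lo') (NPC.Poly.and (NPC.Poly.decide_eq (NPC.Poly.succ hi) hi')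
    (NPC.Poly.and (NPC.Poly.decide_le lo hi) (NPC.Poly.decide_eq c (NPC.Poly.add (NPC.Poly.add c'
      (poly_undb hL h' hi')) (poly_newcb hL h' h))))))

theorem poly_allb : NPC.Poly allb := by
  have hR : NPC.Poly (fun I : Inst => List.range (I.1.length + 1)) :=
    UPoly.range (UPoly.add (UPoly.length (NPC.Poly.fst NPC.Poly.id)) (UPoly.const 1))
  have hC : NPC.Poly (fun I : Inst => List.range (5 * I.1.length + 1)) :=
    UPoly.range (UPoly.add (UPoly.mul (UPoly.const 5) (UPoly.length (NPC.Poly.fst NPC.Poly.id)))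
      (UPoly.const 1))
  unfold allb
  exact poly_product (poly_product hR hR) (poly_product (poly_product (poly_product hR hR)
    (poly_product hR hR)) hC)

theorem poly_empb {L : α → List (List ℕ)} (hL : NPC.Poly L) : NPC.Poly (fun a => empb (L a)) := by
  unfold empb
  exact NPC.Poly.pair (NPC.Poly.pair (NPC.Poly.length hL) (NPC.Poly.length hL))
    (NPC.Poly.pair (NPC.Poly.length hL) (NPC.Poly.length hL))

theorem poly_init : NPC.Poly init := by
  unfold init
  refine NPC.Poly.filter (p := fun (I : Inst) (s : St) => decide (s.1.1 = 0) &&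
    (decide (s.1.2 = I.1.length - 1) && decide (s.2.2 = newcb I.1 (empb I.1) s.2.1)))
    poly_allb ?_
  have hL : NPC.Poly (fun p : Inst × St => p.1.1) := NPC.Poly.fst (NPC.Poly.fst NPC.Poly.id)
  exact NPC.Poly.and (NPC.Poly.decide_eq (NPC.Poly.fst (NPC.Poly.fst (NPC.Poly.snd NPC.Poly.id))) (NPC.Poly.const 0))
    (NPC.Poly.and (NPC.Poly.decide_eq (NPC.Poly.snd (NPC.Poly.fst (NPC.Poly.snd NPC.Poly.id)))
      (NPC.Poly.sub (NPC.Poly.length hL) (NPC.Poly.const 1)))
      (NPC.Poly.decide_eq (NPC.Poly.snd (NPC.Poly.snd (NPC.Poly.snd NPC.Poly.id)))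
        (poly_newcb hL (poly_empb hL) (NPC.Poly.fst (NPC.Poly.snd (NPC.Poly.snd NPC.Poly.id))))))

theorem poly_step : NPC.Poly (fun p : Inst × List St => step p.1 p.2) := by
  unfold step
  refine NPC.Poly.filter (l := fun p : Inst × List St => allb p.1)
    (p := fun (p : Inst × List St) (s : St) => p.2.any (fun s' => tr p.1.1 s' s))
    (poly_allb.comp (NPC.Poly.fst NPC.Poly.id)) ?_
  refine NPC.Poly.any (l := fun x : (Inst × List St) × St => x.1.2)
    (p := fun (x : (Inst × List St) × St) (s' : St) => tr x.1.1.1 s' x.2)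
    (NPC.Poly.snd (NPC.Poly.fst NPC.Poly.id)) ?_
  exact poly_tr (NPC.Poly.fst (NPC.Poly.fst (NPC.Poly.fst (NPC.Poly.fst NPC.Poly.id)))) (NPC.Poly.snd NPC.Poly.id)
    (NPC.Poly.snd (NPC.Poly.fst NPC.Poly.id))

theorem sz_filter_le {p : β → Bool} (l : List β) : sz (l.filter p) ≤ sz l := by
  induction l with
  | nil => simp
  | cons b l ih =>
    rw [List.filter_cons]
    split_ifs
    · simp; omega
    · simp; omega

theorem poly_fin : NPC.Poly fin := by
  obtain ⟨r, hr⟩ := poly_allb.sz_le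
  refine NPC.Poly.iterLen (l := fun I : Inst => I.1.tail) (s := init) (F := fun I s => step I s)
    (NPC.Poly.tail (NPC.Poly.fst NPC.Poly.id)) poly_init poly_step r ?_
  intro I k _
  cases k with
  | zero => exact (sz_filter_le _).trans (hr I)
  | succ k =>
    rw [Function.iterate_succ_apply']
    exact (sz_filter_le _).trans (hr I)

theorem poly_alg : NPC.Poly alg := by
  unfold alg
  refine NPC.Poly.or (NPC.Poly.decide_eq (NPC.Poly.length (NPC.Poly.fst NPC.Poly.id)) (NPC.Poly.const 0)) ?_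
  refine NPC.Poly.any (p := fun (I : Inst) (s : St) => decide (s.1.1 = s.1.2) &&
    decide (s.2.2 + undb I.1 s.2.1 s.1.1 ≤ I.2)) poly_fin ?_
  exact NPC.Poly.and (NPC.Poly.decide_eq (NPC.Poly.fst (NPC.Poly.fst (NPC.Poly.snd NPC.Poly.id)))
    (NPC.Poly.snd (NPC.Poly.fst (NPC.Poly.snd NPC.Poly.id))))
    (NPC.Poly.decide_le (NPC.Poly.add (NPC.Poly.snd (NPC.Poly.snd (NPC.Poly.snd NPC.Poly.id)))
      (poly_undb (NPC.Poly.fst (NPC.Poly.fst NPC.Poly.id)) (NPC.Poly.fst (NPC.Poly.snd (NPC.Poly.snd NPC.Poly.id)))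
        (NPC.Poly.fst (NPC.Poly.fst (NPC.Poly.snd NPC.Poly.id))))) (NPC.Poly.snd (NPC.Poly.fst NPC.Poly.id)))

end PolyPart

/-! ### Correctness -/

theorem memb_iff {h : Reg} {x : ℕ} : memb h x = true ↔ h.mem x := by
  unfold memb Reg.mem
  simp

theorem newcb_eq (L : List (List ℕ)) (h h' : Reg) : newcb L h h' = newc L.length h h' := by
  unfold newcb newc
  have key : (Finset.range L.length).filter (fun x => h'.mem x ∧ ¬ h.mem x) =
      ((List.range L.length).filter (fun x => memb h' x && !(memb h x))).toFinset := by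
    ext x
    rw [Finset.mem_filter, Finset.mem_range, List.mem_toFinset, List.mem_filter, List.mem_range,
      Bool.and_eq_true, memb_iff, Bool.not_eq_true', ← Bool.not_eq_true, memb_iff]
  rw [key, List.toFinset_card_of_nodup (List.Nodup.filter _ List.nodup_range)]

theorem undb_eq (L : List (List ℕ)) (h : Reg) (r : ℕ) :
    undb L h r = und L.length (fun i j => adjb L i j = true) h r := by
  unfold undb und
  have key : (List.range L.length).any (fun x => memb h x && (decide (x = r) || adjb L x r)) = true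
      ↔ Domd L.length (fun i j => adjb L i j = true) h r := by
    rw [List.any_eq_true]
    unfold Domd
    constructor
    · rintro ⟨x, hx, hm⟩
      rw [Bool.and_eq_true, Bool.or_eq_true, decide_eq_true_eq] at hm
      exact ⟨x, List.mem_range.1 hx, memb_iff.1 hm.1, hm.2⟩
    · rintro ⟨x, hx, hm, ho⟩
      refine ⟨x, List.mem_range.2 hx, ?_⟩
      rw [Bool.and_eq_true, Bool.or_eq_true, decide_eq_true_eq]
      exact ⟨memb_iff.2 hm, ho⟩
  by_cases hd : Domd L.length (fun i j => adjb L i j = true) h r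
  · rw [if_pos hd, key.2 hd]; rfl
  · rw [if_neg hd]
    cases hb : (List.range L.length).any
      (fun x => memb h x && (decide (x = r) || adjb L x r)) with
    | true => exact absurd (key.1 hb) hd
    | false => rfl

/-- entries `≥ n` are replaced by `n` -/
def norm (n : ℕ) (h : Reg) : Reg := ((min h.1.1 n, min h.1.2 n), (min h.2.1 n, min h.2.2 n))

theorem norm_mem {n : ℕ} {h : Reg} {x : ℕ} (hx : x < n) : (norm n h).mem x ↔ h.mem x := by
  unfold norm Reg.mem
  simp only
  omega

theorem newc_norm (n : ℕ) (h h' : Reg) : newc n (norm n h) (norm n h') = newc n h h' := by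
  unfold newc
  congr 1
  apply Finset.filter_congr
  intro x hx
  rw [Finset.mem_range] at hx
  rw [norm_mem hx, norm_mem hx]

theorem newc_norm_emp (n : ℕ) (h' : Reg) : newc n (emp n) (norm n h') = newc n (emp n) h' := by
  have : norm n (emp n) = emp n := by simp [norm, emp]
  rw [← newc_norm n (emp n) h', this]

theorem und_norm (n : ℕ) (adj : ℕ → ℕ → Prop) (h : Reg) (r : ℕ) :
    und n adj (norm n h) r = und n adj h r := by
  unfold und
  have : Domd n adj (norm n h) r ↔ Domd n adj h r := by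
    unfold Domd
    constructor
    · rintro ⟨x, hx, hm, ho⟩
      exact ⟨x, hx, (norm_mem hx).1 hm, ho⟩
    · rintro ⟨x, hx, hm, ho⟩
      exact ⟨x, hx, (norm_mem hx).2 hm, ho⟩
  by_cases hd : Domd n adj h r
  · rw [if_pos hd, if_pos (this.2 hd)]
  · rw [if_neg hd, if_neg (fun h' => hd (this.1 h'))]

theorem newc_le (n : ℕ) (h h' : Reg) : newc n h h' ≤ 4 := by
  unfold newc
  have hsub : (Finset.range n).filter (fun x => h'.mem x ∧ ¬ h.mem x) ⊆
      {h'.1.1, h'.1.2, h'.2.1, h'.2.2} := by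
    intro x hx
    rw [Finset.mem_filter] at hx
    simpa [Reg.mem] using hx.2.1
  exact (Finset.card_le_card hsub).trans Finset.card_le_four

theorem und_le (n : ℕ) (adj : ℕ → ℕ → Prop) (h : Reg) (r : ℕ) : und n adj h r ≤ 1 := by
  unfold und
  split_ifs <;> omega

theorem bounds {n : ℕ} {adj : ℕ → ℕ → Prop} {lo hi : ℕ} {h : Reg} {c : ℕ}
    (hr : Reach n adj lo hi h c) : lo ≤ hi ∧ hi ≤ n - 1 ∧ (0 < n → c + 5 * (hi - lo) ≤ 5 * n) := by
  induction hr with
  | start h =>
    refine ⟨Nat.zero_le _, le_rfl, fun hn => ?_⟩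
    have := newc_le n (emp n) h
    omega
  | @bot lo hi h c h' _ hlt ih =>
    refine ⟨by omega, by omega, fun hn => ?_⟩
    have h1 := newc_le n h h'
    have h2 := und_le n adj h lo
    have h3 := ih.2.2 hn
    omega
  | @top lo hi h c h' _ hle ih =>
    refine ⟨by omega, by omega, fun hn => ?_⟩
    have h1 := newc_le n h h'
    have h2 := und_le n adj h (hi + 1)
    have h3 := ih.2.2 hn
    omega

theorem mem_prod {β γ : Type} {l : List β} {l' : List γ} {b : β} {c : γ} :
    (b, c) ∈ l.product l' ↔ b ∈ l ∧ c ∈ l' := List.mem_product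

theorem mem_allb {I : Inst} {s : St} : s ∈ allb I ↔ (s.1.1 ≤ I.1.length ∧ s.1.2 ≤ I.1.length) ∧
    ((s.2.1.1.1 ≤ I.1.length ∧ s.2.1.1.2 ≤ I.1.length) ∧
      (s.2.1.2.1 ≤ I.1.length ∧ s.2.1.2.2 ≤ I.1.length)) ∧ s.2.2 ≤ 5 * I.1.length := by
  obtain ⟨⟨lo, hi⟩, ⟨⟨⟨a, b⟩, ⟨c, d⟩⟩, e⟩⟩ := s
  unfold allb
  simp only [mem_prod, List.mem_range, Nat.lt_succ_iff]

theorem mem_allb_norm {I : Inst} {lo hi : ℕ} {h : Reg} {c : ℕ} (h1 : lo ≤ I.1.length)
    (h2 : hi ≤ I.1.length) (h3 : c ≤ 5 * I.1.length) :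
    (((lo, hi), (norm I.1.length h, c)) : St) ∈ allb I := by
  rw [mem_allb]
  exact ⟨⟨h1, h2⟩, ⟨⟨min_le_right _ _, min_le_right _ _⟩, ⟨min_le_right _ _, min_le_right _ _⟩⟩, h3⟩

theorem sound {I : Inst} (k : ℕ) : ∀ s ∈ (step I)^[k] (init I),
    Reach I.1.length (fun i j => adjb I.1 i j = true) s.1.1 s.1.2 s.2.1 s.2.2 := by
  induction k with
  | zero =>
    rintro ⟨⟨lo, hi⟩, ⟨h, c⟩⟩ hs
    rw [Function.iterate_zero, id, init, List.mem_filter] at hs
    simp only [Bool.and_eq_true, decide_eq_true_eq] at hs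
    obtain ⟨_, h1, h2, h3⟩ := hs
    simp only
    rw [h1, h2, h3, newcb_eq]
    exact Reach.start h
  | succ k ih =>
    rintro ⟨⟨lo, hi⟩, ⟨h, c⟩⟩ hs
    rw [Function.iterate_succ_apply', step, List.mem_filter, List.any_eq_true] at hs
    obtain ⟨_, ⟨⟨⟨lo', hi'⟩, ⟨h', c'⟩⟩, hs', ht⟩⟩ := hs
    have hR := ih _ hs'
    simp only at hR
    simp only [tr, Bool.or_eq_true, Bool.and_eq_true, decide_eq_true_eq, newcb_eq, undb_eq] at ht
    rcases ht with ⟨h1, h2, h3, h4⟩ | ⟨h1, h2, h3, h4⟩
    · simp only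
      rw [h1, h2, h4]
      exact Reach.bot h hR h3
    · simp only
      rw [h4]
      rw [← h2] at hR ⊢
      rw [← h1] at hR
      exact Reach.top h hR h3

theorem complete {I : Inst} (hn : 0 < I.1.length) {lo hi : ℕ} {h : Reg} {c : ℕ}
    (hr : Reach I.1.length (fun i j => adjb I.1 i j = true) lo hi h c) :
    (((lo, hi), (norm I.1.length h, c)) : St) ∈
      (step I)^[I.1.length - 1 - (hi - lo)] (init I) := by
  induction hr with
  | start h =>
    rw [show I.1.length - 1 - (I.1.length - 1 - 0) = 0 by omega, Function.iterate_zero, id, init,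
      List.mem_filter]
    have hc := newc_le I.1.length (emp I.1.length) h
    refine ⟨mem_allb_norm (by omega) (by omega) (by omega), ?_⟩
    simp only [Bool.and_eq_true, decide_eq_true_eq, newcb_eq]
    exact ⟨trivial, trivial, (newc_norm_emp _ _).symm⟩
  | @bot lo hi h c h' hr' hlt ih =>
    have hb := bounds hr'
    have hb' := bounds (Reach.bot h' hr' hlt)
    have hc := hb'.2.2 hn
    rw [show I.1.length - 1 - (hi - (lo + 1)) = I.1.length - 1 - (hi - lo) + 1 by omega,
      Function.iterate_succ_apply', step, List.mem_filter]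
    refine ⟨mem_allb_norm (by omega) (by omega) (by omega), ?_⟩
    rw [List.any_eq_true]
    refine ⟨_, ih, ?_⟩
    simp only [tr, Bool.or_eq_true, Bool.and_eq_true, decide_eq_true_eq, newcb_eq, undb_eq,
      newc_norm, und_norm]
    exact Or.inl ⟨trivial, trivial, hlt, trivial⟩
  | @top lo hi h c h' hr' hle ih =>
    have hb := bounds hr'
    have hb' := bounds (Reach.top h' hr' hle)
    have hc := hb'.2.2 hn
    rw [show I.1.length - 1 - (hi - lo) = I.1.length - 1 - (hi + 1 - lo) + 1 by omega,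
      Function.iterate_succ_apply', step, List.mem_filter]
    refine ⟨mem_allb_norm (by omega) (by omega) (by omega), ?_⟩
    rw [List.any_eq_true]
    refine ⟨_, ih, ?_⟩
    simp only [tr, Bool.or_eq_true, Bool.and_eq_true, decide_eq_true_eq, newcb_eq, undb_eq,
      newc_norm, und_norm]
    exact Or.inr ⟨trivial, trivial, hle, trivial⟩

theorem alg_correct (I : Inst) :
    alg I = true ↔ Scan I.1.length (fun i j => adjb I.1 i j = true) I.2 := by
  unfold alg Scan
  rw [Bool.or_eq_true, decide_eq_true_eq, List.any_eq_true]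
  rcases Nat.eq_zero_or_pos I.1.length with hn | hn
  · simp [hn]
  · refine or_congr Iff.rfl ⟨?_, ?_⟩
    · rintro ⟨⟨⟨lo, hi⟩, ⟨h, c⟩⟩, hs, ht⟩
      simp only [Bool.and_eq_true, decide_eq_true_eq] at ht
      have hR := sound _ _ hs
      simp only at hR
      obtain ⟨h1, h2⟩ := ht
      rw [← h1] at hR
      rw [undb_eq] at h2
      exact ⟨lo, h, c, hR, h2⟩
    · rintro ⟨r, h, c, hR, hc⟩
      have hm := complete hn hR
      refine ⟨((r, r), (norm I.1.length h, c)), ?_, ?_⟩
      · unfold fin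
        rw [List.length_tail]
        simpa using hm
      · simp only [Bool.and_eq_true, decide_eq_true_eq, undb_eq, und_norm]
        exact ⟨trivial, hc⟩

/-- JOB ALG -/
theorem stAlg : StAlg := ⟨alg, poly_alg, alg_correct⟩

end Pool.Agent.K7.H87.SD
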