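import Mathlib

/-!
# A criterion for the vanishing of the Jacobson radical of a group algebra

`Wit n G X` : the group `G` contains an element `b` and a finite set `S` with a function
`l : G → ZMod n` such that left multiplication by the elements
`g⁻¹ (b⁻¹) ^ i g b ^ i`, `g ∈ X`, `i < n`, maps `S` to `S` and adds `i` to `l`.
If this is true for every finite set `X` of nontrivial elements then the Jacobson radical of
`K[G]` is zero for every division ring `K` in which `n ≠ 0`.
-/

namespace Pool.Agent.K7.H87.Gen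

open MonoidAlgebra

/-- The witness condition. -/
def Wit (n : ℕ) (G : Type*) [Group G] (X : Finset G) : Prop :=
  ∃ b : G, ∃ S : Finset G, ∃ l : G → ZMod n, (∃ s ∈ S, l s = 0) ∧
    ∀ g ∈ X, ∀ i ∈ Finset.range n, ∀ s ∈ S,
      g⁻¹ * b⁻¹ ^ i * g * b ^ i * s ∈ S ∧ l (g⁻¹ * b⁻¹ ^ i * g * b ^ i * s) = l s + (i : ZMod n)

variable {G : Type*} [Group G] {K : Type*} [DivisionRing K]

/-- The coefficients of the test element. -/
def cf (K : Type*) [DivisionRing K] (n : ℕ) (z : ZMod n) : K :=
  if z = 0 then 1 else if z = 1 then -1 else 0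

lemma sum_cf (n : ℕ) (hn : 2 ≤ n) (z : ZMod n) :
    ∑ i ∈ Finset.range n, cf K n (z - (i : ZMod n)) = 0 := by
  have : NeZero n := ⟨by omega⟩
  have : Fact (1 < n) := ⟨by omega⟩
  have h1 : ∑ i ∈ Finset.range n, cf K n (z - (i : ZMod n)) = ∑ w : ZMod n, cf K n (z - w) := by
    refine Finset.sum_bij (fun i _ => (i : ZMod n)) (fun _ _ => Finset.mem_univ _) ?_ ?_ ?_
    · intro a ha b hb hab
      rw [Finset.mem_range] at ha hb
      have := (ZMod.natCast_eq_natCast_iff' a b n).1 hab
      rwa [Nat.mod_eq_of_lt ha, Nat.mod_eq_of_lt hb] at this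
    · intro w _
      exact ⟨w.val, Finset.mem_range.2 (ZMod.val_lt w), by simp⟩
    · intro _ _; rfl
  rw [h1]
  have h2 : ∑ w : ZMod n, cf K n (z - w) = ∑ w : ZMod n, cf K n w :=
    Fintype.sum_equiv (Equiv.subLeft z) _ _ (fun w => rfl)
  rw [h2]
  have h10 : (1 : ZMod n) ≠ 0 := one_ne_zero
  have h3 : ∀ w : ZMod n, cf K n w = (if w = 0 then (1 : K) else 0) - (if w = 1 then 1 else 0) := by
    intro w
    unfold cf
    by_cases h : w = 0
    · subst h; simp [h10.symm]
    · by_cases h' : w = 1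
      · subst h'; simp
      · simp [h, h']
  simp [h3]

lemma key_sum (n : ℕ) (hn : 2 ≤ n) (S : Finset G) (l : G → ZMod n) (z : ℕ → G)
    (h : ∀ i ∈ Finset.range n, ∀ s ∈ S, z i * s ∈ S ∧ l (z i * s) = l s + (i : ZMod n)) :
    (∑ i ∈ Finset.range n, single (z i) (1 : K)) * (∑ s ∈ S, single s (cf K n (l s))) = 0 := by
  classical
  rw [Finset.sum_mul]
  have h1 : ∀ i ∈ Finset.range n,
      single (z i) (1 : K) * (∑ s ∈ S, single s (cf K n (l s)))
        = ∑ s ∈ S, single s (cf K n (l s - (i : ZMod n))) := by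
    intro i hi
    rw [Finset.mul_sum]
    have hinj : Set.InjOn (fun s => z i * s) S := fun a _ b _ hab => mul_left_cancel hab
    have himg : S.image (fun s => z i * s) = S := by
      apply Finset.eq_of_subset_of_card_le
      · intro x hx
        obtain ⟨s, hs, rfl⟩ := Finset.mem_image.1 hx
        exact (h i hi s hs).1
      · rw [Finset.card_image_of_injOn hinj]
    conv_rhs => rw [← himg]
    rw [Finset.sum_image hinj]
    refine Finset.sum_congr rfl fun s hs => ?_
    rw [single_mul_single, one_mul, (h i hi s hs).2, add_sub_cancel_right]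
  rw [Finset.sum_congr rfl h1, Finset.sum_comm]
  refine Finset.sum_eq_zero fun s _ => ?_
  have : ∑ i ∈ Finset.range n, (single s (cf K n (l s - (i : ZMod n))) : MonoidAlgebra K G)
      = single s (∑ i ∈ Finset.range n, cf K n (l s - (i : ZMod n))) := by
    ext x
    simp only [coeff_sum, coeff_single, Finsupp.coe_finsetSum, Finset.sum_apply]
    by_cases hx : s = x
    · subst hx; simp
    · simp [hx]
  rw [this, sum_cf n hn]
  simp

theorem jacobson_eq_bot (n : ℕ) (hn : 2 ≤ n) (hK : (n : K) ≠ 0)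
    (hG : ∀ X : Finset G, (1 : G) ∉ X → Wit n G X) :
    Ring.jacobson (MonoidAlgebra K G) = ⊥ := by
  classical
  rw [eq_bot_iff]
  intro α hα
  rw [Submodule.mem_bot]
  by_contra hne
  -- move the support
  obtain ⟨g₀, hg₀⟩ : ∃ g₀, α.coeff g₀ ≠ 0 := by
    by_contra hcon
    push Not at hcon
    exact hne (by ext x; simpa using hcon x)
  set β : MonoidAlgebra K G := single g₀⁻¹ 1 * α with hβ
  have hβJ : β ∈ Ring.jacobson (MonoidAlgebra K G) := Ideal.mul_mem_left _ _ hα
  have hβ1 : β.coeff 1 ≠ 0 := by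
    rw [hβ, coeff_single_mul_apply]
    simpa using hg₀
  obtain ⟨b, S, l, ⟨s₀, hs₀, hls₀⟩, hS⟩ := hG (β.coeff.support.erase 1) (Finset.notMem_erase _ _)
  set γ : MonoidAlgebra K G := ∑ s ∈ S, single s (cf K n (l s)) with hγ
  have hγ0 : γ ≠ 0 := by
    intro h0
    have : γ.coeff s₀ = 1 := by
      rw [hγ, coeff_sum, Finsupp.finsetSum_apply, Finset.sum_eq_single s₀]
      · simp [hls₀, cf]
      · intro t _ ht
        simp [ht]
      · intro h; exact absurd hs₀ h
    rw [h0] at this
    simp at this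
  set δ : MonoidAlgebra K G :=
    ∑ i ∈ Finset.range n, single (b⁻¹ ^ i) 1 * β * single (b ^ i) 1 with hδ
  have hδJ : δ ∈ Ring.jacobson (MonoidAlgebra K G) := by
    refine Submodule.sum_mem _ fun i _ => ?_
    exact Ideal.mul_mem_right _ _ (Ideal.mul_mem_left _ _ hβJ)
  -- action of δ on γ
  have hδγ : δ * γ = single 1 ((n : K) * β.coeff 1) * γ := by
    have hexp : β = ∑ g ∈ β.coeff.support, single g (β.coeff g) := by
      conv_lhs => rw [← sum_coeff_single β]
      rfl
    have h1 : δ = ∑ g ∈ β.coeff.support, single g (β.coeff g) *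
        (∑ i ∈ Finset.range n, single (g⁻¹ * b⁻¹ ^ i * g * b ^ i) (1 : K)) := by
      rw [hδ]
      have : ∀ i ∈ Finset.range n, single (b⁻¹ ^ i) (1 : K) * β * single (b ^ i) 1
          = ∑ g ∈ β.coeff.support, single g (β.coeff g) *
            single (g⁻¹ * b⁻¹ ^ i * g * b ^ i) (1 : K) := by
        intro i _
        conv_lhs => rw [hexp]
        rw [Finset.mul_sum, Finset.sum_mul]
        refine Finset.sum_congr rfl fun g _ => ?_
        rw [single_mul_single, single_mul_single, single_mul_single, one_mul, mul_one]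
        congr 1
        group
      rw [Finset.sum_congr rfl this, Finset.sum_comm]
      refine Finset.sum_congr rfl fun g _ => ?_
      rw [Finset.mul_sum]
    rw [h1, Finset.sum_mul, Finset.sum_eq_single 1]
    · have : (∑ i ∈ Finset.range n, single ((1:G)⁻¹ * b⁻¹ ^ i * 1 * b ^ i) (1 : K))
          = single 1 (n : K) := by
        have h2 : ∀ i ∈ Finset.range n,
            (single ((1:G)⁻¹ * b⁻¹ ^ i * 1 * b ^ i) (1 : K) : MonoidAlgebra K G) = 1 := by
          intro i _
          rw [one_def]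
          congr 1
          group
        rw [Finset.sum_congr rfl h2, Finset.sum_const, Finset.card_range, nsmul_one, natCast_def]
      rw [this, single_mul_single, one_mul]
      congr 2
      exact ((Nat.cast_commute n (β.coeff 1)).eq).symm
    · intro g hg hg1
      rw [mul_assoc, key_sum n hn S l (fun i => g⁻¹ * b⁻¹ ^ i * g * b ^ i)
        (fun i hi s hs => hS g (Finset.mem_erase.2 ⟨hg1, hg⟩) i hi s hs), mul_zero]
    · intro h
      exact absurd (Finsupp.mem_support_iff.2 hβ1) h
  set c : K := (n : K) * β.coeff 1 with hc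
  have hc0 : c ≠ 0 := mul_ne_zero hK hβ1
  set ε : MonoidAlgebra K G := single 1 (- c⁻¹) * δ with hε
  have hεJ : ε ∈ Ring.jacobson (MonoidAlgebra K G) := Ideal.mul_mem_left _ _ hδJ
  have hεγ : ε * γ = - γ := by
    rw [hε, mul_assoc, hδγ, ← mul_assoc, single_mul_single]
    have : -c⁻¹ * c = -1 := by rw [neg_mul, inv_mul_cancel₀ hc0]
    rw [this, one_mul, single_neg, ← one_def, neg_mul, one_mul]
  rw [← Ideal.jacobson_bot, Ideal.mem_jacobson_iff] at hεJ
  obtain ⟨z, hz⟩ := hεJ 1
  rw [Ideal.mem_bot, mul_one] at hz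
  apply hγ0
  have h3 : (z * ε + z - 1) * γ = 0 := by rw [hz, zero_mul]
  rw [sub_mul, add_mul, mul_assoc, hεγ, mul_neg, one_mul, neg_add_cancel, zero_sub] at h3
  exact neg_eq_zero.1 h3

end Pool.Agent.K7.H87.Gen
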