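import Pool.Agent.K7.H87.GenA

/-!
# The witness condition holds in countable extensions

Every countable infinite group `Q` embeds in a countable infinite group in which the witness
condition holds for a given finite set of nontrivial elements of `Q`.
-/

namespace Pool.Agent.K7.H87.Gen

universe u

/-- The witness condition is invariant under isomorphisms. -/
lemma Wit.map {n : ℕ} {G H : Type*} [Group G] [Group H] {X : Finset G} (h : Wit n G X)
    (e : G ≃* H) : Wit n H (X.map e.toEquiv.toEmbedding) := by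
  obtain ⟨b, S, l, ⟨s₀, hs₀, hl⟩, hS⟩ := h
  refine ⟨e b, S.map e.toEquiv.toEmbedding, fun x => l (e.symm x), ⟨e s₀, ?_, ?_⟩, ?_⟩
  · rw [Finset.mem_map]; exact ⟨s₀, hs₀, rfl⟩
  · simpa using hl
  · intro g hg i hi s hs
    obtain ⟨g', hg', rfl⟩ := Finset.mem_map.1 hg
    obtain ⟨s', hs', rfl⟩ := Finset.mem_map.1 hs
    have h2 := hS g' hg' i hi s' hs'
    have h3 : (e g')⁻¹ * (e b)⁻¹ ^ i * e g' * e b ^ i * e s' =
        e (g'⁻¹ * b⁻¹ ^ i * g' * b ^ i * s') := by
      simp only [map_mul, map_inv, map_pow]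
    constructor
    · show (e g')⁻¹ * (e b)⁻¹ ^ i * e g' * e b ^ i * e s' ∈ _
      rw [h3, Finset.mem_map]
      exact ⟨_, h2.1, rfl⟩
    · show l (e.symm ((e g')⁻¹ * (e b)⁻¹ ^ i * e g' * e b ^ i * e s')) = l (e.symm (e s')) + _
      rw [h3, e.symm_apply_apply, e.symm_apply_apply]
      exact h2.2

/-- The witness condition passes to a subgroup which contains the witness. -/
lemma Wit.subgroup {n : ℕ} {H : Type*} [Group H] (K : Subgroup H) (X : Finset K)
    (b : H) (hb : b ∈ K) (S : Finset H) (hSK : ∀ s ∈ S, s ∈ K) (l : H → ZMod n)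
    (h0 : ∃ s ∈ S, l s = 0)
    (h : ∀ g ∈ X, ∀ i ∈ Finset.range n, ∀ s ∈ S,
      (g : H)⁻¹ * b⁻¹ ^ i * g * b ^ i * s ∈ S ∧
        l ((g : H)⁻¹ * b⁻¹ ^ i * g * b ^ i * s) = l s + (i : ZMod n)) :
    Wit n K X := by
  classical
  obtain ⟨s₀, hs₀, hl⟩ := h0
  refine ⟨⟨b, hb⟩, S.subtype (· ∈ K), fun x => l x, ⟨⟨s₀, hSK _ hs₀⟩, ?_, hl⟩, ?_⟩
  · simpa using hs₀
  · intro g hg i hi s hs
    rw [Finset.mem_subtype] at hs
    have := h g hg i hi s hs
    constructor
    · rw [Finset.mem_subtype]
      simpa using this.1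
    · simpa using this.2

section wreath

variable (n : ℕ) (Q : Type u) [Group Q]

/-- The inclusion of the base group. -/
def inc : (Q → Multiplicative (ZMod n)) →* RegularWreathProduct (Multiplicative (ZMod n)) Q where
  toFun f := ⟨f, 1⟩
  map_one' := rfl
  map_mul' f g := by
    ext x
    · simp
    · simp

lemma conj_inc (q : Q) (f : Q → Multiplicative (ZMod n)) :
    (RegularWreathProduct.inl q : RegularWreathProduct (Multiplicative (ZMod n)) Q)⁻¹
      * inc n Q f * RegularWreathProduct.inl q = inc n Q (fun x => f (q * x)) := by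
  ext x
  · simp [inc]
  · simp [inc]

variable {n Q}

theorem exists_ext [Countable Q] [Infinite Q] (hn : 2 ≤ n) (X : Finset Q) (hX : (1 : Q) ∉ X) :
    ∃ (H : Type u) (_ : Group H) (_ : Countable H) (_ : Infinite H) (ι : Q →* H)
      (hι : Function.Injective ι), Wit n H (X.map ⟨ι, hι⟩) := by
  classical
  have : NeZero n := ⟨by omega⟩
  let W := RegularWreathProduct (Multiplicative (ZMod n)) Q
  let δ : Q → Multiplicative (ZMod n) := Pi.mulSingle 1 (Multiplicative.ofAdd 1)
  let b : W := inc n Q δ
  let Y : Finset Q := insert 1 (X.image (·⁻¹))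
  have hfin : {f : Q → Multiplicative (ZMod n) | ∀ x ∉ Y, f x = 1}.Finite := by
    refine Set.Finite.of_finite_image (f := fun f => fun y : Y => f y) (Set.toFinite _) ?_
    intro f hf g hg hfg
    funext x
    by_cases hx : x ∈ Y
    · exact congrFun hfg ⟨x, hx⟩
    · rw [hf x hx, hg x hx]
  let S : Finset W := hfin.toFinset.image (inc n Q)
  let l : W → ZMod n := fun w => Multiplicative.toAdd (w.left 1)
  let gens : Set W := Set.range (RegularWreathProduct.inl : Q →* W) ∪ {b} ∪ (S : Set W)
  have hgens : gens.Countable := by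
    refine Set.Countable.union (Set.Countable.union (Set.countable_range _) ?_) ?_
    · exact Set.countable_singleton _
    · exact S.countable_toSet
  let K : Subgroup W := Subgroup.closure gens
  have hK : Countable K := by
    have : Countable gens := hgens.to_subtype
    have h1 : K = (FreeGroup.lift (fun x : gens => (x : W))).range := by
      rw [FreeGroup.range_lift_eq_closure, Subtype.range_coe_subtype]
      rfl
    have : Countable (FreeGroup gens) := by
      have : Countable (List (gens × Bool)) := inferInstance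
      exact Function.Surjective.countable (f := FreeGroup.mk) Quot.mk_surjective
    rw [h1]
    exact Function.Surjective.countable (MonoidHom.rangeRestrict_surjective _)
  have hmem : ∀ q : Q, (RegularWreathProduct.inl q : W) ∈ K := fun q =>
    Subgroup.subset_closure (Or.inl (Or.inl ⟨q, rfl⟩))
  let ι : Q →* K := (RegularWreathProduct.inl : Q →* W).codRestrict K hmem
  have hι : Function.Injective ι := by
    intro p q hpq
    have : (RegularWreathProduct.inl p : W) = RegularWreathProduct.inl q := congrArg Subtype.val hpq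
    exact congrArg RegularWreathProduct.right this
  refine ⟨K, inferInstance, hK, Infinite.of_injective ι hι, ι, hι, ?_⟩
  refine Wit.subgroup K _ b (Subgroup.subset_closure (Or.inl (Or.inr rfl))) S
    (fun s hs => Subgroup.subset_closure (Or.inr hs)) l ⟨1, ?_, rfl⟩ ?_
  · refine Finset.mem_image.2 ⟨1, ?_, map_one _⟩
    rw [Set.Finite.mem_toFinset]
    intro x _
    rfl
  · intro g hg i hi s hs
    obtain ⟨q, hq, rfl⟩ := Finset.mem_map.1 hg
    obtain ⟨f, hf, rfl⟩ := Finset.mem_image.1 hs
    rw [Set.Finite.mem_toFinset] at hf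
    have hq1 : q ≠ 1 := fun h => hX (h ▸ hq)
    have hcomp : (RegularWreathProduct.inl q : W)⁻¹ * b⁻¹ ^ i * RegularWreathProduct.inl q * b ^ i
        * inc n Q f = inc n Q ((fun x => (δ⁻¹ ^ i) (q * x)) * δ ^ i * f) := by
      have h1 : b⁻¹ ^ i = inc n Q (δ⁻¹ ^ i) := by simp only [b, map_pow, map_inv]
      have h2 : b ^ i = inc n Q (δ ^ i) := by simp only [b, map_pow]
      rw [h1, h2, conj_inc, ← map_mul, ← map_mul]
    show (RegularWreathProduct.inl q : W)⁻¹ * b⁻¹ ^ i * RegularWreathProduct.inl q * b ^ i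
        * inc n Q f ∈ S ∧ l ((RegularWreathProduct.inl q : W)⁻¹ * b⁻¹ ^ i *
          RegularWreathProduct.inl q * b ^ i * inc n Q f) = l (inc n Q f) + i
    rw [hcomp]
    constructor
    · refine Finset.mem_image_of_mem _ ?_
      rw [Set.Finite.mem_toFinset]
      intro x hx
      have hx1 : x ≠ 1 := by
        rintro rfl; exact hx (Finset.mem_insert_self _ _)
      have hx2 : q * x ≠ 1 := by
        intro h
        apply hx
        refine Finset.mem_insert_of_mem (Finset.mem_image.2 ⟨q, hq, ?_⟩)
        exact inv_eq_of_mul_eq_one_right h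
      have e1 : δ (q * x) = 1 := Pi.mulSingle_eq_of_ne hx2 _
      have e2 : δ x = 1 := Pi.mulSingle_eq_of_ne hx1 _
      simp only [Pi.mul_apply, Pi.pow_apply, Pi.inv_apply, e1, e2, hf x hx]
      simp
    · show Multiplicative.toAdd (((fun x => (δ⁻¹ ^ i) (q * x)) * δ ^ i * f) 1)
        = Multiplicative.toAdd (f 1) + i
      have e1 : δ (q * 1) = 1 := Pi.mulSingle_eq_of_ne (by simpa using hq1) _
      have e2 : δ 1 = Multiplicative.ofAdd 1 := Pi.mulSingle_eq_same _ _
      simp only [Pi.mul_apply, Pi.pow_apply, Pi.inv_apply, e1, e2]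
      simp [add_comm]

end wreath

end Pool.Agent.K7.H87.Gen
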