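import Pool.Agent.K7.H50.OG.Basic

/-!
# Project OG, jobs MIR, MON, E
-/

set_option autoImplicit false

namespace Pool.Agent.K7.H87.OG

open Pool.Agent.K7.H50.OG

theorem rg_symm : ∀ a b : Fin 5, rg a b → rg b a := by decide

/-- JOB MIR -/
theorem stMir : StMir := by
  rintro k E ⟨c, hc⟩
  refine ⟨fun x => c (2 * k - x), ?_⟩
  rintro ⟨f, h1, h2, h3⟩
  apply hc
  refine ⟨fun i => 2 * k - f (k + 1 - i), ?_, ?_, ?_⟩
  · intro i hi hik
    have := h1 (k + 1 - i) (by omega) (by omega)
    simp only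
    omega
  · intro i j hi hij hj
    have := h2 (k + 1 - j) (k + 1 - i) (by omega) (by omega) (by omega)
    have h4 := h1 (k + 1 - j) (by omega) (by omega)
    have h5 := h1 (k + 1 - i) (by omega) (by omega)
    simp only
    omega
  · intro i j hi hij hj hE
    exact rg_symm _ _ (h3 (k + 1 - j) (k + 1 - i) (by omega) (by omega) (by omega) hE)

/-- JOB MON -/
theorem stMon : StMon := by
  intro n k E hn hk hcon hG R
  obtain ⟨m, rfl⟩ := Nat.exists_eq_add_of_le hn
  have e1 : (1 + m - 1) * (k - 1) + 1 = m * (k - 1) + 1 := by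
    rw [Nat.add_sub_cancel_left]
  have e2 : (1 + m + 1 - 1) * (k - 1) + 1 = m * (k - 1) + 1 + (k - 1) := by
    rw [Nat.add_sub_cancel, Nat.add_mul, Nat.one_mul]
    omega
  rw [e1]
  have hG' := hG (fun x y => (y ≤ m * (k - 1) + 1 ∧ R x y) ∨ m * (k - 1) + 1 < x)
  rw [e2] at hG'
  generalize m * (k - 1) + 1 = N at hG' ⊢
  rcases hG' with ⟨f, h1, h2, h3⟩ | ⟨g, h1, h2⟩
  · left
    have hall : (∀ i, 1 ≤ i → i ≤ k → f i ≤ N) ∨ ∀ i, 1 ≤ i → i ≤ k → ¬ f i ≤ N := by
      by_contra hcon'
      rw [not_or] at hcon'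
      obtain ⟨ha, hb⟩ := hcon'
      push Not at ha hb
      obtain ⟨i, hi, hik, hfi⟩ := ha
      obtain ⟨j, hj, hjk, hfj⟩ := hb
      obtain ⟨u, v, hu, huv, hv, hE, hS⟩ := hcon (fun x => f x ≤ N) ⟨j, hj, hjk, hfj⟩
        ⟨i, hi, hik, by simpa using hfi⟩
      have h4 := h3 u v hu huv hv hE
      have h5 := h2 u v hu huv hv
      omega
    rcases hall with hall | hall
    · refine ⟨f, fun i hi hik => ⟨(h1 i hi hik).1, hall i hi hik⟩, h2, ?_⟩
      intro i j hi hij hj hE
      rcases h3 i j hi hij hj hE with h4 | h4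
      · exact h4.2
      · have := hall i hi (by omega)
        omega
    · exfalso
      have h4 := hall 1 le_rfl hk
      have h5 := (h1 k hk le_rfl).2
      have h6 := mono_gap h2 le_rfl hk le_rfl
      omega
  · right
    have hN : g (1 + m) ≤ N := by
      by_contra hcon'
      have h4 := (h2 (1 + m) (1 + m + 1) (by omega) (by omega) le_rfl).2
      apply h4
      right
      omega
    have hle : ∀ i, 1 ≤ i → i ≤ 1 + m → g i ≤ N := by
      intro i hi him
      rcases Nat.lt_or_ge i (1 + m) with h | h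
      · have := (h2 i (1 + m) hi h (by omega)).1
        omega
      · have : i = 1 + m := by omega
        rw [this]
        exact hN
    refine ⟨g, fun i hi him => ⟨(h1 i hi (by omega)).1, hle i hi him⟩, ?_⟩
    intro i j hi hij hj
    have h4 := h2 i j hi hij (by omega)
    refine ⟨h4.1, fun hR => h4.2 (Or.inl ⟨hle j (by omega) hj, hR⟩)⟩

/-- JOB E -/
theorem stE : StE := by
  intro k E a b _ ha hab hb e1k e1b eak
  refine ⟨fun x => if x ≤ 1 then 0 else if x ≤ k - 1 then 1 else if x ≤ k then 2 else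
    if x ≤ 2 * k - 2 then 3 else 4, ?_⟩
  rintro ⟨f, h1, h2, h3⟩
  have g1 := h1 1 le_rfl (by omega)
  have gk := h1 k (by omega) le_rfl
  have g2 := mono_gap h2 (le_refl 1) (show 1 ≤ k by omega) le_rfl
  have g3 := h2 1 a le_rfl ha (by omega)
  have g4 := h2 a b (by omega) hab (by omega)
  have g5 := h2 b k (by omega) hb le_rfl
  have r1 := h3 1 k le_rfl (by omega) le_rfl e1k
  have r2 := h3 1 b le_rfl (by omega) (by omega) e1b
  have r3 := h3 a k (by omega) (by omega) le_rfl eak
  simp only at r1 r2 r3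
  have hf1 : f 1 = 1 ∧ 2 * k - 2 < f k := by
    by_contra hcon
    split_ifs at r1 <;> first | omega | (revert r1; decide)
  obtain ⟨hf1, hfk⟩ := hf1
  rw [hf1] at r2 g3
  split_ifs at r2 <;> split_ifs at r3 <;>
    first | omega | (exfalso; revert r2; decide) | (exfalso; revert r3; decide)

end Pool.Agent.K7.H87.OG
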